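import Mathlib
import Pool.Agent.Y959.Hm.Sharp
import Pool.Agent.Y959.Hm.Sharp2

set_option autoImplicit false

/-!
# MP_3d0d30_nt: the inequality at one critical order controls all larger orders

`M_k(T) = ∫_0^T |ζ(1/2 + it)|^{2k} dt`; `Holds k T` is the inequality `M_k(T) ≤ T (log T)^{k²}` of Q2.
If it holds at the single order `k = (log T / log log T)^{1/2}` for all large `T`, then for every
`ε > 0` and all large `t` and `T`, `|ζ(1/2 + it)| ≤ exp ((1 + ε) (log t log log t)^{1/2})`, and the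
inequality holds for all orders `k ≥ (1 + ε) (log T / log log T)^{1/2}`.
-/

namespace Pool.Agent.Results.MP_3d0d30_nt.CriticalOrder

open Complex MeasureTheory Set

/-- `M_k(T) = ∫_0^T |ζ(1/2 + it)|^{2k} dt` -/
noncomputable def M (k T : ℝ) : ℝ := ∫ t in (0:ℝ)..T, ‖riemannZeta (1 / 2 + t * I)‖ ^ (2 * k)

/-- the inequality of Q2 -/
def Holds (k T : ℝ) : Prop := M k T ≤ T * Real.log T ^ (k ^ 2)

/-- the critical order `(log T / log log T)^{1/2}` -/
noncomputable def kcrit (T : ℝ) : ℝ := Real.sqrt (Real.log T / Real.log (Real.log T))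

/-- the critical order controls the maximum of zeta and all larger orders -/
theorem result (h : ∃ T0 : ℝ, ∀ T : ℝ, T0 ≤ T → Holds (kcrit T) T) (ε : ℝ) (hε : 0 < ε) :
    ∃ T0 : ℝ,
      (∀ t : ℝ, T0 ≤ t → ‖riemannZeta (1 / 2 + t * I)‖ ≤
        Real.exp ((1 + ε) * Real.sqrt (Real.log t * Real.log (Real.log t)))) ∧
      (∀ T : ℝ, T0 ≤ T → ∀ k : ℝ, (1 + ε) * kcrit T ≤ k → Holds k T) := by
  obtain ⟨T1, hT1⟩ := Pool.Agent.Y959.Hm.sharp h hε
  obtain ⟨T2, hT2⟩ := Pool.Agent.Y959.Hm.sharp_all Pool.Agent.Y959.Hm.zeta_half_cont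
    (fun t => norm_nonneg _) h (fun ε hε => Pool.Agent.Y959.Hm.sharp h hε) hε
  exact ⟨max T1 T2, fun t ht => hT1 t ((le_max_left _ _).trans ht), fun T hT k hk =>
    hT2 T ((le_max_right _ _).trans hT) k hk⟩

end Pool.Agent.Results.MP_3d0d30_nt.CriticalOrder
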