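import Mathlib
import Pool.Agent.Y959.Hm.Scale2

set_option autoImplicit false

/-!
# MP_3d0d30_nt: the inequality for large orders is equivalent to a bound for the maximum of zeta

`M_k(T) = ∫_0^T |ζ(1/2 + it)|^{2k} dt`; `Holds k T` is the inequality `M_k(T) ≤ T (log T)^{k²}` of Q2.
For every function `ψ` with `ψ(T) / (log T / log log T)^{1/2} → ∞` and every `A ≥ 0` the following are
equivalent: (a) for every `A' > A` the inequality holds for all large `T` and all `k ≥ A' ψ(T)`;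
(b) for every `A' > A`, `max_{0 ≤ t ≤ T} |ζ(1/2 + it)| ≤ (log T)^{A' ψ(T) / 2}` for all large `T`.
For `ψ(T) = log T / log log T` the bound in (b) is `T^{A' / 2}`; with `A = 0` this is the Lindelöf
hypothesis.
-/

namespace Pool.Agent.Results.MP_3d0d30_nt.LargeOrders

open Complex MeasureTheory Set Filter

/-- `M_k(T) = ∫_0^T |ζ(1/2 + it)|^{2k} dt` -/
noncomputable def M (k T : ℝ) : ℝ := ∫ t in (0:ℝ)..T, ‖riemannZeta (1 / 2 + t * I)‖ ^ (2 * k)

/-- the inequality of Q2 -/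
def Holds (k T : ℝ) : Prop := M k T ≤ T * Real.log T ^ (k ^ 2)

/-- the critical order `(log T / log log T)^{1/2}` -/
noncomputable def kcrit (T : ℝ) : ℝ := Real.sqrt (Real.log T / Real.log (Real.log T))

/-- large orders and the maximum of zeta, at every scale above the critical order -/
theorem result (ψ : ℝ → ℝ) (hψ : Tendsto (fun T => ψ T / kcrit T) atTop atTop) (A : ℝ)
    (hA : 0 ≤ A) :
    (∀ A' : ℝ, A < A' → ∃ T0 : ℝ, ∀ T : ℝ, T0 ≤ T → ∀ k : ℝ, A' * ψ T ≤ k → Holds k T) ↔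
    (∀ A' : ℝ, A < A' → ∃ T0 : ℝ, ∀ T : ℝ, T0 ≤ T → ∀ t : ℝ, 0 ≤ t → t ≤ T →
      ‖riemannZeta (1 / 2 + t * I)‖ ≤ Real.log T ^ (A' / 2 * ψ T)) := by
  obtain ⟨C, B, hC, hB, hlip⟩ := Pool.Agent.Y959.Hm.zeta_lip
  exact Pool.Agent.Y959.Hm.scale_sharp Pool.Agent.Y959.Hm.zeta_half_cont
    (fun t => norm_nonneg _) hC hB hlip ψ hψ hA

end Pool.Agent.Results.MP_3d0d30_nt.LargeOrders
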