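import Mathlib
import Pool.Agent.Y959.Hm.Trunc
import Pool.Agent.Y959.Hm.Weyl

set_option autoImplicit false

/-!
# MP_3d0d30_nt: the inequality for all orders and all `T`, off a small set

For every `T ≥ 1000` and every real `k ≥ 2` the inequality of Q2 (of Q1 for `k = 3`) holds, with the
factor `4/5`, after the removal of the set where `|ζ(1/2 + it)| > (log T)^{(k+2)/2}`; this set has
measure at most `(4/5) T (log T)^{-2k}`.
-/

namespace Pool.Agent.Results.MP_3d0d30_nt.OffASmallSet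

open Complex MeasureTheory Set

/-- the inequality of Q2 off a small set, for every `T ≥ 1000` and every real `k ≥ 2` -/
theorem result (T k : ℝ) (hT : 1000 ≤ T) (hk : 2 ≤ k) :
    volume {t : ℝ | (0 ≤ t ∧ t ≤ T) ∧
        Real.log T ^ ((k + 2) / 2) < ‖riemannZeta (1 / 2 + t * I)‖} ≤
      ENNReal.ofReal (4 / 5 * T / Real.log T ^ (2 * k)) ∧
    ∫ t in {t : ℝ | (0 ≤ t ∧ t ≤ T) ∧
        ‖riemannZeta (1 / 2 + t * I)‖ ≤ Real.log T ^ ((k + 2) / 2)},
      ‖riemannZeta (1 / 2 + t * I)‖ ^ (2 * k) ≤ 4 / 5 * T * Real.log T ^ (k ^ 2) := by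
  have hT0 : 0 < T := by linarith
  have hl := Pool.Agent.TH158.FM.log_ge hT
  have hl0 : 0 < Real.log T := by linarith
  have h := Pool.Agent.Y959.Hm.trunc (V := Real.log T ^ ((k + 2) / 2)) (k := k)
    Pool.Agent.Y959.Hm.zeta_half_cont (fun t => norm_nonneg _) hT0.le (by positivity) hk
    (Pool.Agent.Y959.Hm.fourth_true T hT)
  obtain ⟨h1, h2⟩ := h
  have e4 : Real.log T ^ 4 = Real.log T ^ (4 : ℝ) := by norm_cast
  refine ⟨h1.trans (ENNReal.ofReal_le_ofReal (le_of_eq ?_)), h2.trans (le_of_eq ?_)⟩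
  · have e1 : (Real.log T ^ ((k + 2) / 2)) ^ 4 = Real.log T ^ (4:ℝ) * Real.log T ^ (2 * k) := by
      have : (Real.log T ^ ((k + 2) / 2)) ^ 4 = (Real.log T ^ ((k + 2) / 2)) ^ (4 : ℝ) := by norm_cast
      rw [this, ← Real.rpow_mul hl0.le, ← Real.rpow_add hl0]
      congr 1
      ring
    rw [e1, e4]
    have h3 : 0 < Real.log T ^ (4:ℝ) := by positivity
    have h4 : 0 < Real.log T ^ (2 * k) := by positivity
    field_simp
  · rw [e4, ← Real.rpow_mul hl0.le]
    have e1 : Real.log T ^ (k ^ 2) =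
        Real.log T ^ ((k + 2) / 2 * (2 * k - 4)) * Real.log T ^ (4:ℝ) := by
      rw [← Real.rpow_add hl0]
      congr 1
      ring
    rw [e1]
    ring

end Pool.Agent.Results.MP_3d0d30_nt.OffASmallSet
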