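import Pool.Agent.Y754.ZM.W

set_option autoImplicit false

/-!
# MP_3d0d30_nt: the moments of large order in the range of the Weyl bound

`M_k(T) = ∫_0^T |ζ(1/2 + it)|^{2k} dt`. The inequality of Q2 holds, with the constant `4/5` in
place of `1`, for every real `k ≥ k₀(δ)` and every `T ≥ 1000` with
`log T ≤ (3 - δ) k log log T`, or with `T ≤ (k log k)^{(3 - δ) k}`, for every `δ > 0`.

Proof: for `T ≤ (2 k log k)^{2k}` this is the known range. For larger `T` we combine the explicit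
fourth moment with the Weyl bound `|ζ(1/2 + it)| ≤ t^{1/6 + ε}`.
-/

namespace Pool.Agent.Results.MP_3d0d30_nt.WeylRange

open Complex Pool.Agent.TH158.FM

/-- `M_k(T) = ∫_0^T |ζ(1/2 + it)|^{2k} dt` -/
noncomputable def M (k T : ℝ) : ℝ := ∫ t in (0:ℝ)..T, ‖riemannZeta (1 / 2 + t * I)‖ ^ (2 * k)

/-- Q2 for every large real `k` and every `T ≥ 1000` with `log T ≤ (3 - δ) k log log T`, in
particular up to `(k log k)^{(3 - δ) k}` -/
theorem result (δ : ℝ) (hδ : 0 < δ) : ∃ k₀ : ℝ, 3 ≤ k₀ ∧ ∀ k T : ℝ, k₀ ≤ k → 1000 ≤ T →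
    (Real.log T ≤ (3 - δ) * k * Real.log (Real.log T) ∨ T ≤ (k * Real.log k) ^ ((3 - δ) * k)) →
      M k T ≤ 4 / 5 * (T * Real.log T ^ (k ^ 2)) := by
  obtain ⟨k0, h3, h⟩ := Pool.Agent.Y754.ZM.weyl_range δ hδ
  refine ⟨k0, h3, fun k T hk hT hTk => ?_⟩
  have e : M k T = MM k T := by
    unfold M MM
    congr 1
    funext t
    rw [pt_half]
  rw [e]
  exact h k T hk hT hTk

end Pool.Agent.Results.MP_3d0d30_nt.WeylRange
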